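import Pool.Agent.Helper8.TNG.Stmts

namespace Pool.Agent.Helper8.TNG

theorem st_CIN (_h1 : ST_INS) : ST_CIN := by
  intro τ
  induction τ with
  | nil =>
    intro p _ hp
    cases p <;> simp_all [outc, upd, core]
  | cons r s ih =>
    intro p h hp
    have h1 : core r = true := h r (List.mem_cons_self)
    have h0 : ∀ t ∈ s, core t = true := fun t ht => h t (List.mem_cons_of_mem _ ht)
    obtain ⟨i1, i2, i3, i4⟩ := ih p h0 hp
    obtain ⟨j1, j2, j3, j4⟩ := ih r h0 h1
    clear ih h h0
    cases r <;> cases p <;> simp_all [outc, upd, tlt, core]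

end Pool.Agent.Helper8.TNG
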