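import Pool.Agent.Helper8.TNG.Stmts

namespace Pool.Agent.Helper8.TNG

theorem DE2_pos {α : Type} (F : α → Bool) (u v : List α) (p q : α) (hp : F p = false)
    (hq : F q = false) : 1 ≤ nE F (u ++ p :: q :: v) := by
  induction u with
  | nil =>
    have h : nE F (p :: q :: v) = (if F p = false ∧ F q = false then 1 else 0) +
      nE F (q :: v) := rfl
    rw [List.nil_append, h, if_pos ⟨hp, hq⟩]
    omega
  | cons x u ih =>
    cases u with
    | nil =>
      have h : nE F (x :: p :: q :: v) = (if F x = false ∧ F p = false then 1 else 0) +
        nE F (p :: q :: v) := rfl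
      rw [List.nil_append] at ih
      rw [List.cons_append, List.nil_append, h]
      omega
    | cons y u =>
      have h : nE F (x :: y :: (u ++ p :: q :: v)) =
        (if F x = false ∧ F y = false then 1 else 0) + nE F (y :: (u ++ p :: q :: v)) := rfl
      rw [List.cons_append] at ih
      rw [List.cons_append, List.cons_append, h]
      omega

theorem DE2_zero {α : Type} (F : α → Bool) (q : α) (w : List α) (hq : F q = false)
    (h : nE F (q :: w) = 0) : ∃ t w3, w = t :: w3 ∧ F t = true ∧ nE F w3 = 0 := by
  cases w with
  | nil => simp [nE, hq] at h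
  | cons r v =>
    have e : nE F (q :: r :: v) = (if F q = false ∧ F r = false then 1 else 0) +
      nE F (r :: v) := rfl
    rw [e] at h
    have hr : F r = true := by
      by_contra hr
      have hr' : F r = false := by simpa using hr
      simp [hq, hr'] at h
    refine ⟨r, v, rfl, hr, ?_⟩
    have h2 : nE F (r :: v) = 0 := by omega
    cases v with
    | nil => rfl
    | cons r' v' =>
      have e2 : nE F (r :: r' :: v') = (if F r = false ∧ F r' = false then 1 else 0) +
        nE F (r' :: v') := rfl
      omega

theorem DE2_gen {α : Type} (F : α → Bool) (u v : List α) (p q : α) (hp : F p = false)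
    (hq : F q = false) (h : nE F (u ++ p :: q :: v) ≤ 1) :
    nE F u = 0 ∧ ∃ t w3, v = t :: w3 ∧ F t = true ∧ nE F w3 = 0 := by
  induction u with
  | nil =>
    have e : nE F (p :: q :: v) = (if F p = false ∧ F q = false then 1 else 0) +
      nE F (q :: v) := rfl
    rw [List.nil_append, e, if_pos ⟨hp, hq⟩] at h
    exact ⟨rfl, DE2_zero F q v hq (by omega)⟩
  | cons x u ih =>
    cases u with
    | nil =>
      have e : nE F (x :: p :: q :: v) = (if F x = false ∧ F p = false then 1 else 0) +
        nE F (p :: q :: v) := rfl
      have h1 := DE2_pos F [] v p q hp hq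
      rw [List.nil_append] at h1
      rw [List.cons_append, List.nil_append, e] at h
      have hc : ¬ (F x = false ∧ F p = false) := by
        intro hc
        rw [if_pos hc] at h
        omega
      have hx : F x = true := by
        by_contra hx
        exact hc ⟨by simpa using hx, hp⟩
      refine ⟨by simp [nE, hx], (ih ?_).2⟩
      rw [List.nil_append]
      omega
    | cons y u =>
      have e : nE F (x :: y :: (u ++ p :: q :: v)) =
        (if F x = false ∧ F y = false then 1 else 0) + nE F (y :: (u ++ p :: q :: v)) := rfl
      have e2 : nE F (x :: y :: u) =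
        (if F x = false ∧ F y = false then 1 else 0) + nE F (y :: u) := rfl
      have h1 := DE2_pos F (y :: u) v p q hp hq
      rw [List.cons_append] at h1 ih
      rw [List.cons_append, List.cons_append, e] at h
      have h2 := ih (by omega)
      refine ⟨?_, h2.2⟩
      rw [e2, h2.1]
      omega

theorem st_DE2 : ST_DE2 := by
  intro α _ t u v p q hp hq h
  have h1 := DE2_gen (fun q => decide (q = t)) u v p q (by simpa using hp) (by simpa using hq) h
  obtain ⟨h0, t', w3, e, ht, h3⟩ := h1
  have ht' : t' = t := by simpa using ht
  exact ⟨h0, w3, by rw [e, ht'], h3⟩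

end Pool.Agent.Helper8.TNG
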