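import Pool.Agent.Helper8.TNG.Stmts

namespace Pool.Agent.Helper8.TNG

theorem DEC_tail {α : Type} (F : α → Bool) (p q : α) (w : List α) :
    nE F (p :: q :: w) = (if F p = false ∧ F q = false then 1 else 0) + nE F (q :: w) := rfl

/-- If the letter `q` has `F = false` and there is no empty gap in `q :: w`, the next letter
has `F = true`. -/
theorem DEC_zero {α : Type} (F : α → Bool) (q : α) (w : List α) (hq : F q = false)
    (h : nE F (q :: w) = 0) : ∃ t w3, w = t :: w3 ∧ F t = true ∧ nE F w3 = 0 := by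
  cases w with
  | nil => simp [nE, hq] at h
  | cons r v =>
    rw [DEC_tail] at h
    have hr : F r = true := by
      by_contra hr
      have hr' : F r = false := by simpa using hr
      simp [hq, hr'] at h
    refine ⟨r, v, rfl, hr, ?_⟩
    have h2 : nE F (r :: v) = 0 := by omega
    cases v with
    | nil => rfl
    | cons r' v' =>
      rw [DEC_tail] at h2
      omega

theorem DEC_cons {α : Type} (F : α → Bool) (p x : α) (w1 r w' : List α) (q : α)
    (hw : q :: w' = w1 ++ x :: r) (hx : F x = false) (h1 : nE F w1 = 0)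
    (hc : ¬ (F p = false ∧ F q = false)) : nE F (p :: w1) = 0 := by
  cases w1 with
  | nil =>
    simp only [List.nil_append, List.cons.injEq] at hw
    obtain ⟨rfl, -⟩ := hw
    have hp : F p = true := by
      by_contra hp
      exact hc ⟨by simpa using hp, hx⟩
    simp [nE, hp]
  | cons y v =>
    simp only [List.cons_append, List.cons.injEq] at hw
    obtain ⟨rfl, -⟩ := hw
    rw [DEC_tail, h1, if_neg hc]

theorem DEC_gen {α : Type} (F : α → Bool) (w : List α) (h : nE F w ≤ 1) :
    nE F w = 0 ∨
    (∃ w1 p, w = w1 ++ [p] ∧ F p = false ∧ nE F w1 = 0) ∨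
    (∃ w1 p q t w3, w = w1 ++ p :: q :: t :: w3 ∧ F p = false ∧ F q = false ∧ F t = true ∧
      nE F w1 = 0 ∧ nE F w3 = 0) := by
  induction w with
  | nil => exact Or.inl rfl
  | cons p w ih =>
    cases w with
    | nil =>
      by_cases hp : F p = false
      · exact Or.inr (Or.inl ⟨[], p, rfl, hp, rfl⟩)
      · left
        have hp' : F p = true := by simpa using hp
        simp [nE, hp']
    | cons q v =>
      rw [DEC_tail] at h
      by_cases hc : F p = false ∧ F q = false
      · rw [if_pos hc] at h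
        have h0 : nE F (q :: v) = 0 := by omega
        obtain ⟨t, w3, rfl, ht, hw3⟩ := DEC_zero F q v hc.2 h0
        exact Or.inr (Or.inr ⟨[], p, q, t, w3, rfl, hc.1, hc.2, ht, rfl, hw3⟩)
      · rw [if_neg hc] at h
        rcases ih (by omega) with h1 | ⟨w1, p', e, hp', h1⟩ | ⟨w1, p', q', t, w3, e, hp', hq', ht, h1, h3⟩
        · left
          rw [DEC_tail, if_neg hc, h1]
        · exact Or.inr (Or.inl ⟨p :: w1, p', by rw [e]; rfl, hp',
            DEC_cons F p p' w1 [] v q e hp' h1 hc⟩)
        · exact Or.inr (Or.inr ⟨p :: w1, p', q', t, w3, by rw [e]; rfl, hp', hq', ht,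
            DEC_cons F p p' w1 (q' :: t :: w3) v q e hp' h1 hc, h3⟩)

theorem st_DEC : ST_DEC := by
  intro α _ t w h
  have hF : ∀ p : α, decide (p = t) = false ↔ p ≠ t := fun p => by simp
  have hT : ∀ p : α, decide (p = t) = true ↔ p = t := fun p => by simp
  rcases DEC_gen (fun q => decide (q = t)) w h with h1 | ⟨w1, p, e, hp, h1⟩ |
    ⟨w1, p, q, t', w3, e, hp, hq, ht, h1, h3⟩
  · exact Or.inl h1
  · exact Or.inr (Or.inl ⟨w1, p, e, (hF p).1 hp, h1⟩)
  · obtain rfl := (hT t').1 ht
    exact Or.inr (Or.inr ⟨w1, p, q, w3, e, (hF p).1 hp, (hF q).1 hq, h1, h3⟩)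

end Pool.Agent.Helper8.TNG
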