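import Pool.Agent.Helper8.TNG.Stmts

namespace Pool.Agent.Helper8.TNG

theorem PXS_priv : Priv tlt Tok.y Tok.g := by
  refine ⟨by decide, ?_, ?_, ?_⟩
  · decide
  · decide
  · decide

theorem PXS_core (h1 : ST_INS) (v : List Tok) : ∀ t ∈ state tlt (v.filter core), core t = true := by
  intro t ht
  obtain ⟨-, -, hp, -⟩ := h1 Tok tlt
  have h := (hp [] (v.filter core)).mem_iff (a := t)
  have ht2 : t ∈ [] ++ v.filter core := h.1 ht
  rw [List.nil_append] at ht2
  exact (List.mem_filter.1 ht2).2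

theorem PXS_reduce (h1 : ST_INS) (h2 : ST_FLT) (h3 : ST_NR) (w : List Tok) (hx : Tok.x ∉ w)
    (hy : w.count .y = 1) (hn : nE (fun q => decide (q = Tok.g)) (del1 .f w) = 0) (p : Tok) :
    outc tlt (state tlt w) p = outc tlt [Tok.y] (outc tlt (state tlt (w.filter core)) p) := by
  have hf : ∀ p, tlt Tok.f p = false := by decide
  have hg : ∀ p, tlt Tok.g p = false := by decide
  obtain ⟨f1, -, f3⟩ := h2 Tok tlt .f hf
  obtain ⟨g1, -, -⟩ := h2 Tok tlt .g hg
  obtain ⟨-, -, -, -, -, i6, -, -⟩ := h1 Tok tlt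
  have hwf : ∀ p ∈ w, tlt p Tok.f = false := by
    intro p hp
    have hpx : p ≠ .x := fun e => hx (e ▸ hp)
    cases p <;> simp_all [tlt]
  have e1 : outc tlt (state tlt w) p = outc tlt (state tlt (del1 .f w)) p := by
    rw [f1 (state tlt w) p, f3 w hwf]
    rfl
  have e2 : outc tlt (state tlt (del1 .f w)) p =
      outc tlt (del1 .g (state tlt (del1 .f w))) p := g1 _ p
  have hmem : Tok.y ∈ del1 .f w := by
    refine List.mem_filter.2 ⟨?_, by decide⟩
    exact List.count_pos_iff.1 (by omega)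
  have hcount : (del1 .f w).count .y ≤ 1 := by
    have h : (del1 Tok.f w).Sublist w := List.filter_sublist
    have := h.count_le Tok.y
    omega
  have e3 := h3 Tok tlt .y .g PXS_priv [] [] (del1 .f w) false rfl (by simp) (by simp) hcount hn
  have e4 : del .y .g (del1 .f w) = w.filter core := by
    unfold del del1
    rw [List.filter_filter]
    apply List.filter_congr
    intro t ht
    have htx : t ≠ .x := fun e => hx (e ▸ ht)
    cases t <;> simp_all [core]
  rw [if_pos (Or.inr hmem), e4] at e3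
  have e5 : del1 .g (state tlt (del1 .f w)) = state tlt (w.filter core) ++ [Tok.y] := e3
  rw [e1, e2, e5, i6]

theorem st_PXS (h1 : ST_INS) (h2 : ST_FLT) (h3 : ST_NR) (h4 : ST_TZE) : ST_PXS := by
  intro w hx hy hn
  obtain ⟨z1, z2, -, -, -⟩ := h4 (state tlt (w.filter core)) (PXS_core h1 w)
  constructor
  · intro hs
    rw [PXS_reduce h1 h2 h3 w hx hy hn, z1 hs]
    rfl
  · intro hs
    rw [PXS_reduce h1 h2 h3 w hx hy hn, z2 hs]
    rfl

end Pool.Agent.Helper8.TNG
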