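import Pool.Agent.Helper8.TNG.Stmts

namespace Pool.Agent.Helper8.TNG

theorem PYC_priv : Priv tlt Tok.x Tok.f := by
  refine ⟨by decide, ?_, ?_, ?_⟩
  · decide
  · decide
  · decide

/-- If the list begins with core letters, one of them `a`, and there is no `y` in the rest,
then the last carry of `c` is `a`. -/
theorem PYC_key (h1 : ST_INS) (h7 : ST_TZE) (A B : List Tok) (hA : ∀ t ∈ A, core t = true)
    (ha : Tok.a ∈ A) (hB : Tok.y ∉ B) : tlt .y (outc tlt (A ++ B) .c) = true := by
  obtain ⟨-, -, -, -, i5, i6, -, -⟩ := h1 Tok tlt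
  obtain ⟨-, -, -, -, z5⟩ := h7 A hA
  have hb : ∀ r ∈ B, tlt r Tok.a = false := by
    intro r hr
    have hry : r ≠ .y := fun e => hB (e ▸ hr)
    cases r <;> simp_all [tlt]
  rw [i6, z5 ha, (i5 B .a hb).1]
  rfl

theorem PYC_core (t : Tok) (h1 : t ≠ .x) (h2 : t ≠ .y) (h3 : t ≠ .f) (h4 : t ≠ .g) :
    core t = true := by
  cases t <;> simp_all [core]

theorem PYC_del (v : List Tok) (hy : Tok.y ∉ v) (hg : Tok.g ∉ v) :
    ∀ t ∈ del .x .f v, core t = true := by
  intro t ht
  obtain ⟨h1, h2⟩ := List.mem_filter.1 ht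
  have h3 : t ≠ .x ∧ t ≠ .f := by simpa using h2
  exact PYC_core t h3.1 (fun e => hy (e ▸ h1)) h3.2 (fun e => hg (e ▸ h1))

theorem PYC_mem_del (v : List Tok) (h : Tok.a ∈ v) : Tok.a ∈ del .x .f v :=
  List.mem_filter.2 ⟨h, by decide⟩

/-- The good case: the server register `x` is at the end. -/
theorem PYC_good (h1 : ST_INS) (h7 : ST_TZE) (v : List Tok) (hy : Tok.y ∉ v) (hg : Tok.g ∉ v)
    (ha : Tok.a ∈ v) : tlt .y (outc tlt (state tlt (del .x .f v) ++ [Tok.x]) .c) = true := by
  obtain ⟨-, -, i3, -⟩ := h1 Tok tlt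
  have hp : ∀ t, t ∈ state tlt (del .x .f v) ↔ t ∈ del .x .f v := by
    intro t
    have h := (i3 [] (del .x .f v)).mem_iff (a := t)
    rwa [List.nil_append] at h
  refine PYC_key h1 h7 _ _ (fun t ht => PYC_del v hy hg t ((hp t).1 ht))
    ((hp _).2 (PYC_mem_del v ha)) (by decide)

theorem PYC_mem (A U D : List Tok) (p q r r' : Tok)
    (h2 : ∀ t, t ∈ U ++ [r] ↔ t = p ∨ t ∈ D) (h3 : ∀ t, t ∈ A ++ [r'] ↔ t = q ∨ t ∈ U) :
    ∀ t, t ∈ A ++ [r', r] ↔ t = q ∨ t = p ∨ t ∈ D := by
  intro t
  have e : A ++ [r', r] = (A ++ [r']) ++ [r] := by simp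
  rw [e, List.mem_append, h3, or_assoc, ← h2, List.mem_append]

theorem st_PYC (h1 : ST_INS) (h2 : ST_FLT) (h3 : ST_NR) (h4 : ST_DEC) (h5 : ST_MID)
    (h6 : ST_LST) (h7 : ST_TZE) : ST_PYC := by
  intro w hy hx ha hn
  have hf : ∀ p, tlt Tok.f p = false := by decide
  have hg : ∀ p, tlt Tok.g p = false := by decide
  obtain ⟨f1, -, -⟩ := h2 Tok tlt .f hf
  obtain ⟨g1, -, g3⟩ := h2 Tok tlt .g hg
  obtain ⟨i1, i2, i3, i4, i5, i6, i7, i8⟩ := h1 Tok tlt
  have hwg : ∀ p ∈ w, tlt p Tok.g = false := by
    intro p hp
    have hpy : p ≠ .y := fun e => hy (e ▸ hp)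
    cases p <;> simp_all [tlt]
  have e1 : outc tlt (state tlt w) .c = outc tlt (del1 .f (state tlt (del1 .g w))) .c := by
    rw [g1 (state tlt w) .c, g3 w hwg]
    exact f1 _ _
  rw [e1]
  -- the reduced word
  have hy' : Tok.y ∉ del1 .g w := fun h => hy (List.mem_filter.1 h).1
  have hg' : Tok.g ∉ del1 .g w := by
    intro h
    have := (List.mem_filter.1 h).2
    simp at this
  have hx' : (del1 .g w).count .x = 1 := by
    unfold del1
    rw [List.count_filter (by decide)]
    exact hx
  have ha' : (del1 .g w).count .a = 2 := by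
    unfold del1
    rw [List.count_filter (by decide)]
    exact ha
  generalize del1 .g w = v at hn hy' hg' hx' ha'
  have hav : Tok.a ∈ v := List.count_pos_iff.1 (by omega)
  have hxv : Tok.x ∈ v := List.count_pos_iff.1 (by omega)
  rcases h4 Tok .f v hn with h0 | ⟨w1, p, e, hp, h0⟩ | ⟨w1, p, q, w3, e, hp, hq, h0, h0'⟩
  · have e3 := h3 Tok tlt .x .f PYC_priv [] [] v false rfl (by simp) (by simp) (by omega) h0
    rw [if_pos (Or.inr hxv)] at e3
    have e5 : del1 .f (state tlt v) = state tlt (del .x .f v) ++ [Tok.x] := e3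
    rw [e5]
    exact PYC_good h1 h7 v hy' hg' hav
  · subst e
    rcases h6 Tok tlt .x .f PYC_priv w1 p h0 hp hx' with e5 | ⟨hxw, hr, e5, -⟩
    · rw [e5]
      exact PYC_good h1 h7 _ hy' hg' hav
    · rw [e5]
      have hyw : Tok.y ∉ w1 := fun h => hy' (List.mem_append_left _ h)
      have hgw : Tok.g ∉ w1 := fun h => hg' (List.mem_append_left _ h)
      have hc1 : 1 ≤ w1.count .x := List.count_pos_iff.2 hxw
      have hpx : p ≠ .x := by
        rintro rfl
        rw [List.count_append, List.count_singleton_self] at hx'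
        omega
      have hpy : p ≠ .y := by
        rintro rfl
        exact hy' (by simp)
      have hpg : p ≠ .g := by
        rintro rfl
        exact hg' (by simp)
      have hpc : core p = true := PYC_core p hpx hpy hp hpg
      have hp1 : (state tlt (del .x .f w1)).Perm (del .x .f w1) := by
        have h := i3 [] (del .x .f w1)
        rwa [List.nil_append] at h
      have hp2 : (upd tlt (state tlt (del .x .f w1)) p ++
          [outc tlt (state tlt (del .x .f w1)) p]).Perm (p :: del .x .f w1) := by
        rw [← i1]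
        exact (i2 _ _).trans (hp1.cons p)
      have hcore : ∀ t ∈ upd tlt (state tlt (del .x .f w1)) p ++
          [outc tlt (state tlt (del .x .f w1)) p], core t = true := by
        intro t ht
        rcases List.mem_cons.1 (hp2.mem_iff.1 ht) with rfl | ht
        · exact hpc
        · exact PYC_del w1 hyw hgw t ht
      have hca : (p :: del .x .f w1).count .a = 2 := by
        have h : (del .x .f w1).count .a = w1.count .a := by
          unfold del
          rw [List.count_filter (by decide)]
        rw [List.count_cons, h]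
        rw [List.count_append, List.count_singleton] at ha'
        omega
      have hmem : Tok.a ∈ upd tlt (state tlt (del .x .f w1)) p := by
        apply List.count_pos_iff.1
        have h := hp2.count_eq Tok.a
        rw [hca, List.count_append] at h
        have h8 := List.count_le_length (a := Tok.a)
          (l := [outc tlt (state tlt (del .x .f w1)) p])
        rw [List.length_singleton] at h8
        omega
      refine PYC_key h1 h7 _ _ (fun t ht => hcore t (List.mem_append_left _ ht)) hmem ?_
      intro hyr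
      have hyr' : Tok.y = outc tlt (state tlt (del .x .f w1)) p := by
        simpa using hyr
      have := hcore Tok.y (by rw [hyr']; simp)
      exact absurd this (by decide)
  · subst e
    obtain ⟨m1, m2⟩ := h5 Tok tlt .x .f PYC_priv w1 w3 p q h0 h0' hp hq hx'
    by_cases hc : Tok.x ∈ w1 ∧ tlt .x (outc tlt (state tlt (del .x .f w1)) p) = false ∧
        tlt .x (outc tlt (upd tlt (state tlt (del .x .f w1)) p) q) = true ∧
        tlt (outc tlt (state tlt (del .x .f w1)) p)
          (outc tlt (upd tlt (state tlt (del .x .f w1)) p) q) = false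
    · obtain ⟨hxw, c1, c2, c3⟩ := hc
      rw [(m2 hxw c1 c2 c3).1]
      have hyw : Tok.y ∉ w1 := fun h => hy' (List.mem_append_left _ h)
      have hgw : Tok.g ∉ w1 := fun h => hg' (List.mem_append_left _ h)
      have hc1 : 1 ≤ w1.count .x := List.count_pos_iff.2 hxw
      have hrest : (p :: q :: Tok.f :: w3).count .x = 0 := by
        rw [List.count_append] at hx'
        omega
      have hxr : Tok.x ∉ p :: q :: Tok.f :: w3 := List.count_eq_zero.1 hrest
      have hyr : Tok.y ∉ p :: q :: Tok.f :: w3 := fun h => hy' (List.mem_append_right _ h)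
      have hgr : Tok.g ∉ p :: q :: Tok.f :: w3 := fun h => hg' (List.mem_append_right _ h)
      have hpc : core p = true := PYC_core p (fun e => hxr (by simp [e]))
        (fun e => hyr (by simp [e])) hp (fun e => hgr (by simp [e]))
      have hqc : core q = true := PYC_core q (fun e => hxr (by simp [e]))
        (fun e => hyr (by simp [e])) hq (fun e => hgr (by simp [e]))
      have hyw3 : Tok.y ∉ w3 := fun h => hyr (by simp [h])
      have hgw3 : Tok.g ∉ w3 := fun h => hgr (by simp [h])
      have hp1 : ∀ t, t ∈ state tlt (del .x .f w1) ↔ t ∈ del .x .f w1 := by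
        intro t
        have h := (i3 [] (del .x .f w1)).mem_iff (a := t)
        rwa [List.nil_append] at h
      have hp2 : ∀ t, t ∈ upd tlt (state tlt (del .x .f w1)) p ++
          [outc tlt (state tlt (del .x .f w1)) p] ↔ t = p ∨ t ∈ del .x .f w1 := by
        intro t
        rw [← i1, (i2 _ _).mem_iff, List.mem_cons, hp1]
      have hp3 : ∀ t, t ∈ upd tlt (upd tlt (state tlt (del .x .f w1)) p) q ++
          [outc tlt (upd tlt (state tlt (del .x .f w1)) p) q] ↔
          t = q ∨ t ∈ upd tlt (state tlt (del .x .f w1)) p := by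
        intro t
        rw [← i1, (i2 _ _).mem_iff, List.mem_cons]
      have hp4 : ∀ t, t ∈ upd tlt (upd tlt (state tlt (del .x .f w1)) p) q ++
          [outc tlt (upd tlt (state tlt (del .x .f w1)) p) q,
            outc tlt (state tlt (del .x .f w1)) p] ↔
          t = q ∨ t = p ∨ t ∈ del .x .f w1 :=
        PYC_mem _ _ _ _ _ _ _ hp2 hp3
      have hp5 : ∀ t, t ∈ run tlt (upd tlt (upd tlt (state tlt (del .x .f w1)) p) q ++
          [outc tlt (upd tlt (state tlt (del .x .f w1)) p) q,
            outc tlt (state tlt (del .x .f w1)) p]) (del .x .f w3) ↔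
          (t = q ∨ t = p ∨ t ∈ del .x .f w1) ∨ t ∈ del .x .f w3 := by
        intro t
        rw [(i3 _ _).mem_iff, List.mem_append, hp4]
      refine PYC_key h1 h7 _ _ ?_ ?_ (by decide)
      · intro t ht
        rcases (hp5 t).1 ht with (rfl | rfl | ht) | ht
        · exact hqc
        · exact hpc
        · exact PYC_del w1 hyw hgw t ht
        · exact PYC_del w3 hyw3 hgw3 t ht
      · rw [hp5]
        rcases List.mem_append.1 hav with h | h
        · exact Or.inl (Or.inr (Or.inr (PYC_mem_del _ h)))
        · rcases List.mem_cons.1 h with h | h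
          · exact Or.inl (Or.inr (Or.inl h))
          · rcases List.mem_cons.1 h with h | h
            · exact Or.inl (Or.inl h)
            · rcases List.mem_cons.1 h with h | h
              · exact absurd h (by decide)
              · exact Or.inr (PYC_mem_del _ h)
    · rw [m1 hc]
      exact PYC_good h1 h7 _ hy' hg' hav

end Pool.Agent.Helper8.TNG
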