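import Pool.Agent.Helper8.TNG.Stmts

namespace Pool.Agent.Helper8.TNG

theorem TRV_x {B M K K' : ℕ} (r : El B M K K') (h : r.1 = .x) : r = eX B M K K' := by
  obtain ⟨t, i⟩ := r
  have h' : t = .x := h
  subst h'
  have hi : i = (0 : Fin 1) := Subsingleton.elim (α := Fin 1) i 0
  rw [hi]
  rfl

theorem TRV_y {B M K K' : ℕ} (r : El B M K K') (h : r.1 = .y) : r = eY B M K K' := by
  obtain ⟨t, i⟩ := r
  have h' : t = .y := h
  subst h'
  have hi : i = (0 : Fin 1) := Subsingleton.elim (α := Fin 1) i 0
  rw [hi]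
  rfl

theorem TRV_one (h1 : ST_PB) (h2 : ST_INS) (h3 : ST_WC) (B M K K' : ℕ) (u l : El B M K K')
    (hu : elt B M K K' u l = true) (hr : ∀ r, r ≠ u → elt B M K K' r l = false) :
    pr (Finset.univ \ {u, l}) (fun w =>
      elt B M K K' u (outc (elt B M K K') (state (elt B M K K') w) l) = true) = 1 := by
  obtain ⟨-, -, -, -, h5, -⟩ := h1 (El B M K K') (Finset.univ \ {u, l}) (fun w =>
      elt B M K K' u (outc (elt B M K K') (state (elt B M K K') w) l) = true) (fun _ => True)
  apply h5
  intro w hw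
  obtain ⟨-, hmem⟩ := ((h3 (El B M K K') (Finset.univ \ {u, l})).1 w).1 hw
  obtain ⟨-, -, i3, -, i5, -⟩ := h2 (El B M K K') (elt B M K K')
  have hp : ∀ t, t ∈ state (elt B M K K') w ↔ t ∈ w := by
    intro t
    have h := (i3 [] w).mem_iff (a := t)
    rwa [List.nil_append] at h
  have e : outc (elt B M K K') (state (elt B M K K') w) l = l := by
    refine (i5 _ l ?_).1
    intro r hrm
    have h := (hmem r).1 ((hp r).1 hrm)
    rw [Finset.mem_sdiff, Finset.mem_insert, not_or] at h
    exact hr r h.2.1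
  rw [e]
  exact hu

theorem st_TRV (h1 : ST_PB) (h2 : ST_INS) (h3 : ST_WC) (_h4 : ST_POS) : ST_TRV := by
  intro B M K K' l hl
  have hnn : ∀ (S : Finset (El B M K K')) (Q : List (El B M K K') → Prop), 0 ≤ pr S Q :=
    fun S Q => (h1 (El B M K K') S Q (fun _ => True)).1
  unfold sv
  by_cases hx : tk l = .o ∨ tk l = .f
  · have h := TRV_one h1 h2 h3 B M K K' (eX B M K K') l ?_ ?_
    · rw [h]
      have := hnn (Finset.univ \ {eY B M K K', l}) (fun w =>
        elt B M K K' (eY B M K K') (outc (elt B M K K') (state (elt B M K K') w) l) = true)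
      linarith
    · have hl' : l.1 = .o ∨ l.1 = .f := hx
      unfold elt eX
      rcases hl' with h | h <;> rw [h] <;> rfl
    · intro r hr
      have hl' : l.1 = .o ∨ l.1 = .f := hx
      have hrx : r.1 ≠ .x := fun e => hr (TRV_x r e)
      unfold elt
      generalize r.1 = t at hrx
      rcases hl' with h | h <;> rw [h] <;> revert hrx <;> revert t <;> decide
  · have hy : l.1 = .a ∨ l.1 = .b ∨ l.1 = .g := by
      have hl2 : l.1 = .o ∨ l.1 = .f ∨ l.1 = .a ∨ l.1 = .b ∨ l.1 = .g := hl
      have hx2 : ¬ (l.1 = .o ∨ l.1 = .f) := hx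
      rcases hl2 with h | h | h | h | h
      · exact absurd (Or.inl h) hx2
      · exact absurd (Or.inr h) hx2
      · exact Or.inl h
      · exact Or.inr (Or.inl h)
      · exact Or.inr (Or.inr h)
    have h := TRV_one h1 h2 h3 B M K K' (eY B M K K') l ?_ ?_
    · rw [h]
      have := hnn (Finset.univ \ {eX B M K K', l}) (fun w =>
        elt B M K K' (eX B M K K') (outc (elt B M K K') (state (elt B M K K') w) l) = true)
      linarith
    · unfold elt eY
      rcases hy with h | h | h <;> rw [h] <;> rfl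
    · intro r hr
      have hrx : r.1 ≠ .y := fun e => hr (TRV_y r e)
      unfold elt
      generalize r.1 = t at hrx
      rcases hy with h | h | h <;> rw [h] <;> revert hrx <;> revert t <;> decide

end Pool.Agent.Helper8.TNG
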