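import Pool.Agent.Helper8.TNG.Stmts

namespace Pool.Agent.Helper8.TNG

theorem TZE_o (τ : List Tok) (h : ∀ t ∈ τ, core t = true) : outc tlt τ .o = .o := by
  induction τ with
  | nil => rfl
  | cons r s ih =>
    have h1 : core r = true := h r (List.mem_cons_self)
    have h2 := ih (fun t ht => h t (List.mem_cons_of_mem _ ht))
    cases r <;> simp_all [outc, tlt, core]

theorem TZE_a (τ : List Tok) (h : ∀ t ∈ τ, core t = true) : outc tlt τ .a = .a := by
  induction τ with
  | nil => rfl
  | cons r s ih =>
    have h1 : core r = true := h r (List.mem_cons_self)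
    have h2 := ih (fun t ht => h t (List.mem_cons_of_mem _ ht))
    cases r <;> simp_all [outc, tlt, core]

theorem TZE_b (τ : List Tok) (h : ∀ t ∈ τ, core t = true) : outc tlt τ .b = .b := by
  induction τ with
  | nil => rfl
  | cons r s ih =>
    have h1 : core r = true := h r (List.mem_cons_self)
    have h2 := ih (fun t ht => h t (List.mem_cons_of_mem _ ht))
    cases r <;> simp_all [outc, tlt, core]

theorem TZE_c (τ : List Tok) (h : ∀ t ∈ τ, core t = true) (ha : Tok.a ∈ τ) :
    outc tlt τ .c = .a := by
  induction τ with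
  | nil => simp at ha
  | cons r s ih =>
    have h1 : core r = true := h r (List.mem_cons_self)
    have h0 : ∀ t ∈ s, core t = true := fun t ht => h t (List.mem_cons_of_mem _ ht)
    have h2 := ih h0
    have h3 := TZE_a s h0
    cases r <;> simp_all [outc, tlt, core]

theorem st_TZE (_h1 : ST_INS) : ST_TZE := by
  intro τ
  induction τ with
  | nil =>
    intro _
    refine ⟨?_, ?_, ?_, ?_, ?_⟩ <;> simp [Rb]
  | cons r s ih =>
    intro h
    have h1 : core r = true := h r (List.mem_cons_self)
    have h0 : ∀ t ∈ s, core t = true := fun t ht => h t (List.mem_cons_of_mem _ ht)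
    obtain ⟨i1, i2, i3, i4, i5⟩ := ih h0
    have ho := TZE_o s h0
    have ha := TZE_a s h0
    have hb := TZE_b s h0
    refine ⟨?_, ?_, ?_, ?_, TZE_c (r :: s) h⟩
    · cases r <;> simp_all [outc, tlt, core, Rb, KK]
    · cases r <;> simp_all [outc, tlt, core, Rb, BB]
    · cases r <;> simp_all [outc, tlt, core, Rb, KK]
    · cases r <;> simp_all [outc, tlt, core, Rb, BB]

end Pool.Agent.Helper8.TNG
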